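import Pool.Agent.Helper57.SJ.Stmts2

/-! # Row GB (MP_818aa8_nt): the maxima outside a small set -/

set_option autoImplicit false

namespace Pool.Agent.Helper33.SJ

open MeasureTheory Set Filter Topology
open Pool.Agent.Helper57.QZ (Pr tor circ aa Zy Wy Sy Vy Ky pt lin Good zA Pz)
open Pool.Agent.Helper57.SI (wsup P1 P2 fej fc gc Kk zz ZZ ww D1 D2 tl)
open Pool.Agent.Helper57.SJ

theorem gb_sup {G : Set ℝ} {a b : ℝ} {f : ℝ → ℝ} (hub : ∀ t ∈ G, f t ≤ b)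
    (hlb : ∃ t ∈ G, a ≤ f t) : a ≤ sSup (f '' G) ∧ sSup (f '' G) ≤ b := by
  obtain ⟨t, ht, hat⟩ := hlb
  have hbd : BddAbove (f '' G) := by
    refine ⟨b, ?_⟩
    rintro _ ⟨s, hs, rfl⟩
    exact hub s hs
  constructor
  · exact hat.trans (le_csSup hbd ⟨t, ht, rfl⟩)
  · refine csSup_le ⟨f t, ⟨t, ht, rfl⟩⟩ ?_
    rintro _ ⟨s, hs, rfl⟩
    exact hub s hs

theorem gb_alg {d A L a b m : ℝ} (hd0 : 0 < d) (hd1 : d ≤ 1 / 20) (hA : 0 < A) (hL : 0 < L)
    (ha1 : (1 - d) * A ≤ a) (ha2 : a ≤ (1 + d) * A)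
    (hb1 : (1 - d) * A * ((1 - d) * L) ≤ b) (hb2 : b ≤ (1 + d) * A * ((1 + d) * L))
    (hm1 : (1 - d) * L ≤ m) (hm2 : m ≤ (1 + d) * L) :
    (1 - 10 * d) * (b / a) ≤ m ∧ m ≤ (1 + 10 * d) * (b / a) ∧ |m - L| ≤ 10 * d * L := by
  have ha : 0 < a := lt_of_lt_of_le (by nlinarith) ha1
  have hq1 : (1 - 4 * d) * L ≤ b / a := by
    rw [le_div_iff₀ ha]
    have h1 : (1 - 4 * d) * L * a ≤ (1 - 4 * d) * L * ((1 + d) * A) :=
      mul_le_mul_of_nonneg_left ha2 (mul_nonneg (by linarith) hL.le)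
    have h2 : (1 - 4 * d) * L * ((1 + d) * A) ≤ (1 - d) * A * ((1 - d) * L) := by
      have : 0 < A * L := mul_pos hA hL
      nlinarith
    linarith
  have hq2 : b / a ≤ (1 + 4 * d) * L := by
    rw [div_le_iff₀ ha]
    have h1 : (1 + 4 * d) * L * ((1 - d) * A) ≤ (1 + 4 * d) * L * a :=
      mul_le_mul_of_nonneg_left ha1 (mul_nonneg (by linarith) hL.le)
    have h2 : (1 + d) * A * ((1 + d) * L) ≤ (1 + 4 * d) * L * ((1 - d) * A) := by
      have : 0 < A * L := mul_pos hA hL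
      nlinarith
    linarith
  refine ⟨?_, ?_, ?_⟩
  · calc (1 - 10 * d) * (b / a) ≤ (1 - 10 * d) * ((1 + 4 * d) * L) :=
        mul_le_mul_of_nonneg_left hq2 (by linarith)
      _ ≤ (1 - d) * L := by nlinarith
      _ ≤ m := hm1
  · calc m ≤ (1 + d) * L := hm2
      _ ≤ (1 + 10 * d) * ((1 - 4 * d) * L) := by nlinarith
      _ ≤ (1 + 10 * d) * (b / a) := mul_le_mul_of_nonneg_left hq1 (by linarith)
  · rw [abs_le]
    constructor <;> nlinarith


/-- large `T` -/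
theorem gb_large {c d H₀ : ℝ} (hc : 0 < c) (hd : 0 < d) : ∃ T₁ : ℝ, ∀ T : ℝ, T₁ ≤ T →
    H₀ ≤ T ^ c ∧ |Real.log c| ≤ d * Real.log (Real.log T) ∧ 1 ≤ Real.log (Real.log T) := by
  have h1 : ∀ᶠ T : ℝ in atTop, H₀ ≤ T ^ c := (tendsto_rpow_atTop hc).eventually_ge_atTop H₀
  have h2 : Tendsto (fun T : ℝ => Real.log (Real.log T)) atTop atTop :=
    Real.tendsto_log_atTop.comp Real.tendsto_log_atTop
  have h3 := h2.eventually_ge_atTop (|Real.log c| / d)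
  have h4 := h2.eventually_ge_atTop 1
  obtain ⟨T₁, h⟩ := (h1.and (h3.and h4)).exists_forall_of_atTop
  refine ⟨T₁, fun T hT => ?_⟩
  obtain ⟨a1, a2, a3⟩ := h T hT
  refine ⟨a1, ?_, a3⟩
  rw [div_le_iff₀ hd] at a2
  linarith

/-- row GB -/
theorem st_GB (h : ST_CMK) : ST_GB := by
  intro δ hδ
  have hδ0 : 0 < δ := hδ.1
  have hδ1 : δ < 1 := hδ.2
  obtain ⟨d, hdd⟩ : ∃ d : ℝ, d = δ / 40 := ⟨_, rfl⟩
  have hd0 : 0 < d := by rw [hdd]; positivity
  have hd1 : d ≤ 1 / 40 := by rw [hdd]; linarith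
  have hδd : δ = 40 * d := by rw [hdd]; ring
  obtain ⟨c, hc, H₀, T₀, hH₀, hT₀, h1⟩ := h d ⟨hd0, by linarith⟩ 1 le_rfl
  obtain ⟨T₁, hT₁⟩ := gb_large (c := c) (d := d) (H₀ := H₀) hc.1 hd0
  refine ⟨c, hc, max T₀ T₁, hT₀.trans (le_max_left _ _), fun T hT => ?_⟩
  obtain ⟨g1, g2, g3⟩ := hT₁ T ((le_max_right _ _).trans hT)
  have hTT : T₀ ≤ T := (le_max_left _ _).trans hT
  have hT4 : 4 ≤ T := hT₀.trans hTT
  have hT0 : 0 < T := by linarith
  obtain ⟨hL, A, hA, E, hE1, hE2, h2⟩ := h1 T hTT (T ^ c) g1 le_rfl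
  obtain ⟨H, hH⟩ : ∃ H : ℝ, H = T ^ c := ⟨_, rfl⟩
  rw [← hH] at hL hE2 h2 g1
  have hH0 : 0 ≤ H := by linarith
  have hlogT : 0 < Real.log T := Real.log_pos (by linarith)
  have hLT : Real.log (Real.log H) = Real.log c + Real.log (Real.log T) := by
    rw [hH, Real.log_rpow hT0, Real.log_mul hc.1.ne' hlogT.ne']
  have hpow : T * H ^ (-1 : ℝ) = T ^ (1 - c) := by
    rw [hH, ← Real.rpow_mul hT0.le, sub_eq_add_neg, Real.rpow_add hT0, Real.rpow_one]
    congr 2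
    ring
  rw [hpow] at hE2
  obtain ⟨G, hG⟩ : ∃ G : Set ℝ, G = {t | ∃ u ∈ Icc T (2 * T), u ∉ E ∧ t ∈ Icc u (u + H)} :=
    ⟨_, rfl⟩
  have hGT : G ⊆ Icc T (2 * T) := by
    rw [hG]
    rintro t ⟨u, hu, huE, ht⟩
    have := (h2 u hu huE).1
    exact ⟨hu.1.trans ht.1, ht.2.trans this⟩
  have hGE : Icc T (2 * T) \ G ⊆ E := by
    rintro u ⟨hu, huG⟩
    by_contra huE
    refine huG ?_
    rw [hG]
    exact ⟨u, hu, huE, le_rfl, by linarith⟩
  have hEfin : volume E ≠ ⊤ := by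
    refine ne_top_of_le_ne_top ?_ (measure_mono hE1)
    rw [Real.volume_Icc]
    exact ENNReal.ofReal_ne_top
  have hex : ∃ u ∈ Icc T (2 * T), u ∉ E := by
    by_contra hcon
    push Not at hcon
    have h5 : volume.real (Icc T (2 * T)) ≤ volume.real E :=
      measureReal_mono (fun u hu => hcon u hu) hEfin
    rw [Real.volume_real_Icc_of_le (by linarith)] at h5
    have h6 : T ^ (1 - c) < T := by
      calc T ^ (1 - c) < T ^ (1 : ℝ) :=
            Real.rpow_lt_rpow_of_exponent_lt (by linarith) (by linarith [hc.1])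
        _ = T := Real.rpow_one T
    linarith
  obtain ⟨u₀, hu₀, hu₀E⟩ := hex
  refine ⟨G, hGT, (measureReal_mono hGE hEfin).trans hE2, fun θ => ?_⟩
  have hall : ∀ t ∈ G, riemannZeta (pt 1 t) ≠ 0 ∧ ‖riemannZeta (pt 1 t)‖ ≤ (1 + d) * A ∧
      ‖deriv riemannZeta (pt 1 t) / riemannZeta (pt 1 t)‖ ≤
        (1 + d) * Real.log (Real.log H) := by
    rw [hG]
    rintro t ⟨u, hu, huE, ht⟩
    exact (h2 u hu huE).2.1 t ht
  obtain ⟨-, -, ⟨t₁, ht₁, hz1, hw1⟩, hθ⟩ := h2 u₀ hu₀ hu₀E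
  obtain ⟨t₂, ht₂, hw2⟩ := hθ θ
  have hg1 : t₁ ∈ G := by
    rw [hG]
    exact ⟨u₀, hu₀, hu₀E, ht₁⟩
  have hg2 : t₂ ∈ G := by
    rw [hG]
    exact ⟨u₀, hu₀, hu₀E, ht₂⟩
  have hL0 : 0 < Real.log (Real.log H) := by linarith
  have hder : ∀ t ∈ G, ‖deriv riemannZeta (pt 1 t)‖ =
      ‖riemannZeta (pt 1 t)‖ * ‖deriv riemannZeta (pt 1 t) / riemannZeta (pt 1 t)‖ := by
    intro t ht
    rw [← norm_mul, mul_div_cancel₀ _ (hall t ht).1]
  have s1 := gb_sup (f := fun t : ℝ => ‖riemannZeta (pt 1 t)‖)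
    (fun t ht => (hall t ht).2.1) ⟨t₁, hg1, hz1⟩
  have s2 := gb_sup (f := fun t : ℝ => ‖deriv riemannZeta (pt 1 t)‖) (G := G)
    (a := (1 - d) * A * ((1 - d) * Real.log (Real.log H)))
    (b := (1 + d) * A * ((1 + d) * Real.log (Real.log H)))
    (fun t ht => by
      show ‖deriv riemannZeta (pt 1 t)‖ ≤ _
      rw [hder t ht]
      exact mul_le_mul (hall t ht).2.1 (hall t ht).2.2 (norm_nonneg _) (by positivity))
    ⟨t₁, hg1, by
      show _ ≤ ‖deriv riemannZeta (pt 1 t₁)‖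
      rw [hder t₁ hg1]
      exact mul_le_mul hz1 hw1 (mul_nonneg (by linarith) hL0.le) (norm_nonneg _)⟩
  have s3 := gb_sup (f := fun t : ℝ => (Complex.exp (-((θ : ℂ) * Complex.I)) *
      (deriv riemannZeta (pt 1 t) / riemannZeta (pt 1 t))).re) (G := G)
    (a := (1 - d) * Real.log (Real.log H))
    (b := (1 + d) * Real.log (Real.log H))
    (fun t ht => by
      refine (Complex.re_le_norm _).trans ?_
      rw [norm_mul, show -((θ : ℂ) * Complex.I) = ((-θ : ℝ) : ℂ) * Complex.I by push_cast; ring,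
        Complex.norm_exp_ofReal_mul_I, one_mul]
      exact (hall t ht).2.2)
    ⟨t₂, hg2, hw2⟩
  have h4 := gb_alg hd0 (by linarith) hA hL0 s1.1 s1.2 s2.1 s2.2 s3.1 s3.2
  have hM : 0 ≤ sSup ((fun t : ℝ => ‖deriv riemannZeta (pt 1 t)‖) '' G) /
      sSup ((fun t : ℝ => ‖riemannZeta (pt 1 t)‖) '' G) := by
    refine div_nonneg (le_trans ?_ s2.1) (le_trans ?_ s1.1)
    · exact mul_nonneg (mul_nonneg (by linarith) hA.le) (mul_nonneg (by linarith) hL0.le)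
    · exact mul_nonneg (by linarith) hA.le
  refine ⟨?_, ?_, ?_⟩
  · refine le_trans (mul_le_mul_of_nonneg_right ?_ hM) h4.1
    linarith
  · refine le_trans h4.2.1 (mul_le_mul_of_nonneg_right ?_ hM)
    linarith
  · have h5 := h4.2.2
    have h6 : |Real.log (Real.log H) - Real.log (Real.log T)| ≤ d * Real.log (Real.log T) := by
      rw [hLT, add_sub_cancel_right]
      exact g2
    have h7 : Real.log (Real.log H) ≤ 2 * Real.log (Real.log T) := by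
      have := (abs_le.1 h6).2
      nlinarith
    have h8 := abs_sub_le (sSup ((fun t : ℝ => (Complex.exp (-((θ : ℂ) * Complex.I)) *
      (deriv riemannZeta (pt 1 t) / riemannZeta (pt 1 t))).re) '' G)) (Real.log (Real.log H))
      (Real.log (Real.log T))
    have h9 : 10 * d * Real.log (Real.log H) ≤ 10 * d * (2 * Real.log (Real.log T)) :=
      mul_le_mul_of_nonneg_left h7 (by positivity)
    have h10 : 0 ≤ d * Real.log (Real.log T) := by positivity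
    rw [hδd]
    linarith

end Pool.Agent.Helper33.SJ
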