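import Pool.Agent.Helper57.SJ.Stmts

/-! # Row TWT (MP_818aa8_nt): the weighted second moment along the line -/

set_option autoImplicit false

namespace Pool.Agent.Helper33.SJ

open MeasureTheory Set Filter Topology
open Pool.Agent.Helper57.QZ (Pr tor circ aa Zy Wy Sy Vy Ky pt lin Good zA Pz)
open Pool.Agent.Helper57.SI (wsup P1 P2 fej fc gc Kk zz ZZ ww D1 D2 tl)
open Pool.Agent.Helper57.SJ

/-- an oscillating integral -/
theorem twt_osc (l b T : ℝ) (hl : l ≠ 0) :
    ‖∫ t in T..(2 * T), Complex.exp (((t * l + b : ℝ) : ℂ) * Complex.I)‖ ≤ 2 / |l| := by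
  have hc : (l : ℂ) * Complex.I ≠ 0 := mul_ne_zero (by exact_mod_cast hl) Complex.I_ne_zero
  have e : ∀ t : ℝ, Complex.exp (((t * l + b : ℝ) : ℂ) * Complex.I) =
      Complex.exp ((b : ℂ) * Complex.I) * Complex.exp ((l : ℂ) * Complex.I * (t : ℂ)) := by
    intro t
    rw [← Complex.exp_add]
    congr 1
    push_cast
    ring
  simp_rw [e]
  rw [intervalIntegral.integral_const_mul, integral_exp_mul_complex hc, norm_mul,
    Complex.norm_exp_ofReal_mul_I, one_mul, norm_div, norm_mul, Complex.norm_I, mul_one,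
    Complex.norm_real, Real.norm_eq_abs]
  refine div_le_div_of_nonneg_right ?_ (abs_nonneg _)
  have n : ∀ x : ℝ, ‖Complex.exp ((l : ℂ) * Complex.I * (x : ℂ))‖ = 1 := by
    intro x
    have : (l : ℂ) * Complex.I * (x : ℂ) = ((l * x : ℝ) : ℂ) * Complex.I := by push_cast; ring
    rw [this, Complex.norm_exp_ofReal_mul_I]
  calc _ ≤ ‖Complex.exp ((l : ℂ) * Complex.I * ((2 * T : ℝ) : ℂ))‖ +
        ‖Complex.exp ((l : ℂ) * Complex.I * (T : ℂ))‖ := norm_sub_le _ _
    _ = 2 := by rw [n, n]; norm_num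

theorem twt_card (y : ℕ) : Fintype.card (Pr y) ≤ y := by
  have h1 : Fintype.card (Pr y) = (Nat.primesBelow (y + 1)).card := Fintype.card_coe _
  have h2 : Nat.primesBelow (y + 1) ⊆ Finset.Icc 1 y := by
    intro p hp
    have h3 := Nat.lt_of_mem_primesBelow hp
    have h4 := (Nat.prime_of_mem_primesBelow hp).one_lt
    rw [Finset.mem_Icc]
    omega
  have h3 := Finset.card_le_card h2
  rw [Nat.card_Icc] at h3
  omega

/-- the sum with general coefficients -/
theorem twt_sum {ι : Type*} (S : Finset ι) (D : ι → Prop) [DecidablePred D] (C : ι → ℝ)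
    (lam bet : ι → ℝ) (T R : ℝ) (hR : 0 ≤ R)
    (h0 : ∀ s ∈ S, D s → lam s = 0 ∧ bet s = 0)
    (h1 : ∀ s ∈ S, ¬ D s → C s ≠ 0 → 2 / |lam s| ≤ R ∧ lam s ≠ 0) :
    (∫ t in T..(2 * T), (∑ s ∈ S, (C s : ℂ) *
      Complex.exp (((t * lam s + bet s : ℝ) : ℂ) * Complex.I)).re) ≤
      T * (∑ s ∈ S, if D s then C s else 0) + R * ∑ s ∈ S, |C s| := by
  have hint : ∀ s ∈ S, IntervalIntegrable (fun t : ℝ => (C s : ℂ) *
      Complex.exp (((t * lam s + bet s : ℝ) : ℂ) * Complex.I)) volume T (2 * T) := by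
    intro s _
    refine Continuous.intervalIntegrable ?_ _ _
    fun_prop
  have hre : (∫ t in T..(2 * T), (∑ s ∈ S, (C s : ℂ) *
      Complex.exp (((t * lam s + bet s : ℝ) : ℂ) * Complex.I)).re) =
      (∫ t in T..(2 * T), ∑ s ∈ S, (C s : ℂ) *
      Complex.exp (((t * lam s + bet s : ℝ) : ℂ) * Complex.I)).re := by
    have hi : IntervalIntegrable (fun t : ℝ => ∑ s ∈ S, (C s : ℂ) *
      Complex.exp (((t * lam s + bet s : ℝ) : ℂ) * Complex.I)) volume T (2 * T) := by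
      refine Continuous.intervalIntegrable ?_ _ _
      fun_prop
    have := Complex.reCLM.intervalIntegral_comp_comm hi
    simpa using this
  rw [hre, intervalIntegral.integral_finsetSum hint, Complex.re_sum, Finset.mul_sum,
    Finset.mul_sum, ← Finset.sum_add_distrib]
  refine Finset.sum_le_sum fun s hs => ?_
  by_cases hD : D s
  · obtain ⟨e1, e2⟩ := h0 s hs hD
    rw [if_pos hD]
    simp only [e1, e2, mul_zero, add_zero, Complex.ofReal_zero, zero_mul, Complex.exp_zero,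
      mul_one, intervalIntegral.integral_const]
    have h3 : ((2 * T - T) • (C s : ℂ)).re = T * C s := by
      rw [Complex.real_smul, ← Complex.ofReal_mul, Complex.ofReal_re]
      ring
    rw [h3]
    have h4 : 0 ≤ R * |C s| := mul_nonneg hR (abs_nonneg _)
    linarith
  · rw [if_neg hD, mul_zero, zero_add]
    by_cases hC : C s = 0
    · rw [hC]
      simp
    · obtain ⟨h2, h3⟩ := h1 s hs hD hC
      refine (Complex.re_le_norm _).trans ?_
      rw [intervalIntegral.integral_const_mul, norm_mul, Complex.norm_real, Real.norm_eq_abs,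
        mul_comm]
      exact mul_le_mul_of_nonneg_right ((twt_osc _ _ _ h3).trans h2) (abs_nonneg _)

/-- row TWT -/
theorem st_TWT (hFR : ST_FR2) (hFJ : Pool.Agent.Helper57.SI.ST_FJ1) : ST_TWT := by
  classical
  intro y z K j α T hK hj hy hT
  obtain ⟨hf1, -, hf0, -, hfb⟩ := hFJ K hK
  obtain ⟨J, hJ⟩ : ∃ J : Finset ℤ, J = Finset.Icc (-(K : ℤ)) (K : ℤ) := ⟨_, rfl⟩
  have h0J : (0 : ℤ) ∈ J := by rw [hJ]; simp
  obtain ⟨F, hF⟩ : ∃ F : Finset (Pr z → ℤ), F = Fintype.piFinset fun _ : Pr z => J := ⟨_, rfl⟩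
  have h0F : (0 : Pr z → ℤ) ∈ F := by
    rw [hF, Fintype.mem_piFinset]
    exact fun _ => h0J
  -- the kernel
  have hfej : ∀ x : ℝ, ((fej K x : ℝ) : ℂ) = ∑ k ∈ J,
      (fc K k : ℂ) * Complex.exp ((((k : ℝ) * x : ℝ) : ℂ) * Complex.I) := by
    intro x
    rw [hf1 x, hJ]
    symm
    refine Finset.sum_subset ?_ ?_
    · intro k hk
      rw [Finset.mem_Icc] at hk ⊢
      push_cast
      omega
    · intro k _ hk
      rw [Finset.mem_Icc, not_and_or, not_le, not_le] at hk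
      have hk2 : (K : ℝ) ≤ |(k : ℝ)| := by
        rw [le_abs]
        rcases hk with h | h
        · right
          have : (K : ℤ) ≤ -k := by omega
          exact_mod_cast this
        · left
          exact_mod_cast h.le
      have hK0 : (0 : ℝ) < K := by exact_mod_cast hK
      have h3 : fc K k = 0 := by
        unfold fc
        rw [max_eq_left]
        have : 1 ≤ |(k : ℝ)| / K := by rwa [one_le_div hK0]
        linarith
      rw [h3]
      simp
  obtain ⟨lam, hlam⟩ : ∃ lam : (Pr z → ℤ) → ℝ,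
    ∀ k, lam k = ∑ p : Pr z, (k p : ℝ) * Real.log ((p : ℕ) : ℝ) := ⟨_, fun _ => rfl⟩
  obtain ⟨bet, hbet⟩ : ∃ bet : (Pr z → ℤ) → ℝ,
    ∀ k, bet k = ∑ p : Pr z, (k p : ℝ) * α := ⟨_, fun _ => rfl⟩
  obtain ⟨C, hC⟩ : ∃ C : (Pr z → ℤ) → ℝ, ∀ k, C k = ∏ p : Pr z, fc K (k p) :=
    ⟨_, fun _ => rfl⟩
  obtain ⟨a, ha⟩ : ∃ a : Pr y → ℝ, ∀ q, a q = if z < (q : ℕ) then
      Real.log ((q : ℕ) : ℝ) ^ j / ((q : ℕ) : ℝ) else 0 := ⟨_, fun _ => rfl⟩
  have hww : ∀ t : ℝ, ((ww z K α t : ℝ) : ℂ) = ∑ k ∈ F, (C k : ℂ) *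
      Complex.exp (((t * lam k + bet k : ℝ) : ℂ) * Complex.I) := by
    intro t
    unfold ww
    rw [Complex.ofReal_prod]
    rw [Finset.prod_congr rfl fun (p : Pr z) _ => hfej (t * Real.log ((p : ℕ) : ℝ) + α),
      Finset.prod_univ_sum, ← hF]
    refine Finset.sum_congr rfl fun k _ => ?_
    rw [Finset.prod_mul_distrib, ← Complex.exp_sum, hC, Complex.ofReal_prod]
    congr 2
    rw [← Finset.sum_mul, ← Complex.ofReal_sum]
    congr 2
    rw [hlam, hbet, Finset.mul_sum, ← Finset.sum_add_distrib]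
    exact Finset.sum_congr rfl fun p _ => by ring
  have htl : ∀ t : ℝ, tl j y z (lin y t) = ∑ q : Pr y, (a q : ℂ) *
      Complex.exp (-((t * Real.log ((q : ℕ) : ℝ) : ℝ) : ℂ) * Complex.I) := by
    intro t
    unfold tl lin
    refine Finset.sum_congr rfl fun q _ => ?_
    rw [ha]
    split_ifs
    · rw [neg_mul]
    · simp
  have hsq : ∀ t : ℝ, ((‖tl j y z (lin y t)‖ ^ 2 : ℝ) : ℂ) = ∑ r : Pr y × Pr y,
      ((a r.1 * a r.2 : ℝ) : ℂ) * Complex.exp (((t * (Real.log ((r.2 : ℕ) : ℝ) -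
        Real.log ((r.1 : ℕ) : ℝ)) : ℝ) : ℂ) * Complex.I) := by
    intro t
    have h1 : ((‖tl j y z (lin y t)‖ ^ 2 : ℝ) : ℂ) =
        tl j y z (lin y t) * (starRingEnd ℂ) (tl j y z (lin y t)) := by
      rw [Complex.mul_conj, Complex.normSq_eq_norm_sq]
    rw [h1, htl, map_sum, Finset.sum_mul_sum, ← Finset.univ_product_univ, Finset.sum_product]
    refine Finset.sum_congr rfl fun q _ => Finset.sum_congr rfl fun q' _ => ?_
    simp only
    rw [map_mul, Complex.conj_ofReal, ← Complex.exp_conj, map_mul, map_neg, Complex.conj_ofReal,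
      Complex.conj_I]
    have e : (a q : ℂ) * Complex.exp (-((t * Real.log ((q : ℕ) : ℝ) : ℝ) : ℂ) * Complex.I) *
        ((a q' : ℂ) * Complex.exp (-((t * Real.log ((q' : ℕ) : ℝ) : ℝ) : ℂ) * -Complex.I)) =
        ((a q : ℂ) * (a q' : ℂ)) *
        (Complex.exp (-((t * Real.log ((q : ℕ) : ℝ) : ℝ) : ℂ) * Complex.I) *
        Complex.exp (-((t * Real.log ((q' : ℕ) : ℝ) : ℝ) : ℂ) * -Complex.I)) := by ring
    rw [e, ← Complex.exp_add]
    push_cast
    congr 2
    ring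
  obtain ⟨S, hS⟩ : ∃ S : Finset ((Pr z → ℤ) × (Pr y × Pr y)),
      S = F ×ˢ (Finset.univ : Finset (Pr y × Pr y)) := ⟨_, rfl⟩
  have hprod : ∀ t : ℝ, ww z K α t * ‖tl j y z (lin y t)‖ ^ 2 =
      (∑ s ∈ S, ((C s.1 * (a s.2.1 * a s.2.2) : ℝ) : ℂ) *
        Complex.exp (((t * (lam s.1 + (Real.log ((s.2.2 : ℕ) : ℝ) -
          Real.log ((s.2.1 : ℕ) : ℝ))) + bet s.1 : ℝ) : ℂ) * Complex.I)).re := by
    intro t
    have h1 : ((ww z K α t * ‖tl j y z (lin y t)‖ ^ 2 : ℝ) : ℂ) =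
        ∑ s ∈ S, ((C s.1 * (a s.2.1 * a s.2.2) : ℝ) : ℂ) *
        Complex.exp (((t * (lam s.1 + (Real.log ((s.2.2 : ℕ) : ℝ) -
          Real.log ((s.2.1 : ℕ) : ℝ))) + bet s.1 : ℝ) : ℂ) * Complex.I) := by
      rw [Complex.ofReal_mul, hww, hsq, Finset.sum_mul_sum, hS, Finset.sum_product]
      refine Finset.sum_congr rfl fun k _ => Finset.sum_congr rfl fun r _ => ?_
      simp only
      have e : ∀ u v w x : ℂ, u * v * (w * x) = (u * w) * (v * x) := fun u v w x => by ring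
      rw [e, ← Complex.exp_add]
      push_cast
      congr 2
      ring
    rw [← h1, Complex.ofReal_re]
  simp_rw [hprod]
  -- bounds
  have hq : ∀ q : Pr y, (q : ℕ).Prime ∧ (q : ℕ) ≤ y := fun q =>
    ⟨Nat.prime_of_mem_primesBelow q.2, by
      have := Nat.lt_of_mem_primesBelow q.2
      omega⟩
  have ha0 : ∀ q, 0 ≤ a q := by
    intro q
    rw [ha]
    split_ifs
    · have h1 : 0 ≤ Real.log ((q : ℕ) : ℝ) := Real.log_nonneg (by exact_mod_cast (hq q).1.one_lt.le)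
      positivity
    · exact le_rfl
  have ha1 : ∀ q, a q ≤ 1 := by
    intro q
    rw [ha]
    have hq1 : (1 : ℝ) ≤ ((q : ℕ) : ℝ) := by exact_mod_cast (hq q).1.one_lt.le
    split_ifs
    · rw [div_le_one (by linarith)]
      have h1 : 0 ≤ Real.log ((q : ℕ) : ℝ) := Real.log_nonneg hq1
      have h2 : Real.log ((q : ℕ) : ℝ) ≤ ((q : ℕ) : ℝ) := by
        have := Real.log_le_sub_one_of_pos (show (0 : ℝ) < ((q : ℕ) : ℝ) by linarith)
        linarith
      interval_cases j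
      · simpa using hq1
      · simpa using h2
    · norm_num
  have hasum : ∑ q, a q ≤ y := by
    calc ∑ q, a q ≤ ∑ _q : Pr y, (1 : ℝ) := Finset.sum_le_sum fun q _ => ha1 q
      _ = (Fintype.card (Pr y) : ℝ) := by simp
      _ ≤ y := by exact_mod_cast twt_card y
  have hasum0 : 0 ≤ ∑ q, a q := Finset.sum_nonneg fun q _ => ha0 q
  have hCsum : ∑ k ∈ F, |C k| ≤ (2 * K + 1 : ℝ) ^ z := by
    have h1 : ∑ k ∈ F, |C k| = ∏ _p : Pr z, ∑ k ∈ J, |fc K k| := by
      rw [Finset.prod_univ_sum, ← hF]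
      exact Finset.sum_congr rfl fun k _ => by rw [hC, Finset.abs_prod]
    have h2 : ∑ k ∈ J, |fc K k| ≤ 2 * K + 1 := by
      calc ∑ k ∈ J, |fc K k| ≤ ∑ _k ∈ J, (1 : ℝ) := Finset.sum_le_sum fun k _ => (hfb k).1
        _ = (J.card : ℝ) := by simp
        _ = 2 * K + 1 := by
          rw [hJ, Int.card_Icc]
          have : ((K : ℤ) + 1 - -(K : ℤ)).toNat = 2 * K + 1 := by omega
          rw [this]
          push_cast
          ring
    have h3 : (0 : ℝ) ≤ ∑ k ∈ J, |fc K k| := Finset.sum_nonneg fun _ _ => abs_nonneg _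
    rw [h1, Finset.prod_const, Finset.card_univ]
    calc (∑ k ∈ J, |fc K k|) ^ Fintype.card (Pr z) ≤ (2 * K + 1 : ℝ) ^ Fintype.card (Pr z) :=
          pow_le_pow_left₀ h3 h2 _
      _ ≤ (2 * K + 1 : ℝ) ^ z := pow_le_pow_right₀ (by
          have : (0 : ℝ) ≤ K := Nat.cast_nonneg K
          linarith) (twt_card z)
  have hy0 : (0 : ℝ) < y := by exact_mod_cast hy
  have h4 : (0 : ℝ) < 4 ^ (K * z) := by positivity
  have hmain := twt_sum S (fun s => s.1 = 0 ∧ s.2.1 = s.2.2)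
    (fun s => C s.1 * (a s.2.1 * a s.2.2))
    (fun s => lam s.1 + (Real.log ((s.2.2 : ℕ) : ℝ) - Real.log ((s.2.1 : ℕ) : ℝ)))
    (fun s => bet s.1) T (2 * 4 ^ (K * z) * y) (by positivity) (by
      rintro ⟨k, q, q'⟩ _ ⟨h1, h2⟩
      simp only at h1 h2 ⊢
      rw [h1, h2, hlam, hbet]
      simp) (by
      rintro ⟨k, q, q'⟩ hs hD hne
      simp only at hD hne ⊢
      have hkF : k ∈ F := by
        rw [hS, Finset.mem_product] at hs
        exact hs.1
      have hkb : ∀ p, |k p| ≤ (K : ℤ) := by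
        intro p
        rw [hF, Fintype.mem_piFinset] at hkF
        have := hkF p
        rw [hJ, Finset.mem_Icc] at this
        exact abs_le.2 this
      have hq0 : a q ≠ 0 := fun h => hne (by rw [h]; ring)
      have hq0' : a q' ≠ 0 := fun h => hne (by rw [h]; ring)
      have hzq : z < (q : ℕ) := by
        by_contra h
        exact hq0 (by rw [ha, if_neg h])
      have hzq' : z < (q' : ℕ) := by
        by_contra h
        exact hq0' (by rw [ha, if_neg h])
      have hor : k ≠ 0 ∨ (q' : ℕ) ≠ (q : ℕ) := by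
        by_contra h
        push Not at h
        exact hD ⟨h.1, Subtype.ext h.2.symm⟩
      have h1 := hFR z K y (q' : ℕ) (q : ℕ) k hkb (hq q').1 (hq q).1 hzq' hzq (hq q').2 (hq q).2 hor
      rw [← hlam] at h1
      have e : lam k + (Real.log ((q' : ℕ) : ℝ) - Real.log ((q : ℕ) : ℝ)) =
          lam k + Real.log ((q' : ℕ) : ℝ) - Real.log ((q : ℕ) : ℝ) := by ring
      rw [e]
      have h2 : 0 < |lam k + Real.log ((q' : ℕ) : ℝ) - Real.log ((q : ℕ) : ℝ)| :=
        lt_of_lt_of_le (by positivity) h1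
      refine ⟨?_, abs_pos.1 h2⟩
      rw [div_le_iff₀ h2]
      have h5 : 1 ≤ (4 ^ (K * z) * y) *
          |lam k + Real.log ((q' : ℕ) : ℝ) - Real.log ((q : ℕ) : ℝ)| := by
        rw [div_le_iff₀ (by positivity)] at h1
        linarith
      linarith)
  refine hmain.trans ?_
  have e1 : (∑ s ∈ S, if s.1 = 0 ∧ s.2.1 = s.2.2 then C s.1 * (a s.2.1 * a s.2.2) else 0) =
      ∑ p : Pr y, if z < (p : ℕ) then
        (Real.log ((p : ℕ) : ℝ) ^ j / ((p : ℕ) : ℝ)) ^ 2 else 0 := by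
    rw [hS, Finset.sum_product, Finset.sum_eq_single_of_mem 0 h0F]
    · have hC0 : C 0 = 1 := by
        rw [hC]
        simp [hf0]
      rw [← Finset.univ_product_univ, Finset.sum_product]
      refine Finset.sum_congr rfl fun q _ => ?_
      rw [Finset.sum_eq_single_of_mem q (Finset.mem_univ q)]
      · rw [if_pos ⟨rfl, rfl⟩, hC0, one_mul, ha]
        split_ifs
        · ring
        · ring
      · intro q' _ hq'
        rw [if_neg]
        rintro ⟨_, h⟩
        exact hq' h.symm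
    · intro k _ hk
      refine Finset.sum_eq_zero fun r _ => ?_
      rw [if_neg]
      rintro ⟨h, _⟩
      exact hk h
  have e2 : ∑ s ∈ S, |C s.1 * (a s.2.1 * a s.2.2)| = (∑ k ∈ F, |C k|) * (∑ q, a q) ^ 2 := by
    rw [hS, Finset.sum_product, sq, Finset.sum_mul_sum, Finset.sum_mul]
    refine Finset.sum_congr rfl fun k _ => ?_
    rw [← Finset.univ_product_univ, Finset.sum_product, Finset.mul_sum]
    refine Finset.sum_congr rfl fun q _ => ?_
    rw [Finset.mul_sum]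
    refine Finset.sum_congr rfl fun q' _ => ?_
    rw [abs_mul, abs_of_nonneg (mul_nonneg (ha0 q) (ha0 q'))]
  rw [e1, e2]
  refine add_le_add le_rfl ?_
  have h6 : (∑ k ∈ F, |C k|) * (∑ q, a q) ^ 2 ≤ (2 * K + 1 : ℝ) ^ z * (y : ℝ) ^ 2 := by
    refine mul_le_mul hCsum (pow_le_pow_left₀ hasum0 hasum 2) (by positivity) (by positivity)
  calc 2 * 4 ^ (K * z) * (y : ℝ) * ((∑ k ∈ F, |C k|) * (∑ q, a q) ^ 2) ≤
      2 * 4 ^ (K * z) * (y : ℝ) * ((2 * K + 1 : ℝ) ^ z * (y : ℝ) ^ 2) :=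
        mul_le_mul_of_nonneg_left h6 (by positivity)
    _ = 2 * 4 ^ (K * z) * (2 * K + 1) ^ z * (y : ℝ) ^ 3 := by ring

end Pool.Agent.Helper33.SJ
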